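import Pool.Agent.W5h94.AM.LampMain
import Pool.Agent.W5h94.AM.LampTwo
import Pool.Agent.W5h94.AM.WM

set_option autoImplicit false

/-!
# Asymptotic minors of groups with commuting conjugates (MP_0f7bfe_al)

The conjecture (Q1) holds for every finitely generated group `Γ` which contains an element `t` and a
set `A` whose conjugates by the powers of `t` commute and generate a group which is generated neither
by the nonnegative nor by the nonpositive ones: every finite graph is an asymptotic minor of every
Cayley graph of `Γ`.
-/

open SimpleGraph Pool.Agent.W5h94.AM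

namespace Pool.Agent.Results.MP_0f7bfe_al.CommutingConjugates

/-- Let `t ∈ Γ` and `A ⊆ Γ` such that the conjugates `t ^ k a t ^ (-k)` (`a ∈ A`, `k ∈ ℤ`) commute, and
such that neither those with `k ≥ 0` nor those with `k ≤ 0` generate the same group as all of them.
Then every finite graph `H` is an asymptotic minor of the Cayley graph of `Γ` for every finite
generating set `S` of `Γ`. -/
theorem result {Γ : Type} [Group Γ] (t : Γ) (A : Set Γ)
    (hcomm : ∀ x ∈ Cj t A Set.univ, ∀ y ∈ Cj t A Set.univ, x * y = y * x)
    (hpos : Subgroup.closure (Cj t A (Set.Ici 0)) ≠ Subgroup.closure (Cj t A Set.univ))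
    (hneg : Subgroup.closure (Cj t A (Set.Iic 0)) ≠ Subgroup.closure (Cj t A Set.univ))
    (S : Set Γ) (hS : S.Finite) (hgen : Subgroup.closure S = ⊤)
    {W : Type} [Finite W] (H : SimpleGraph W) : AsymptoticMinor H (mulCayley S) :=
  cj_main wm lamp2 hS hgen t A hcomm hpos hneg H

end Pool.Agent.Results.MP_0f7bfe_al.CommutingConjugates
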