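import Pool.Agent.W5h94.AM.Semi2
import Pool.Agent.W5h94.AM.WM
import Pool.Agent.W5h94.AM.Line
import Pool.Agent.W5h94.AM.Far
import Pool.Agent.W5h94.AM.Flap1
import Pool.Agent.W5h94.AM.Flaps
import Pool.Agent.W5h94.AM.RouteB

set_option autoImplicit false

/-!
# Asymptotic minors of groups with an infinite finitely generated normal subgroup (MP_0f7bfe_al)

The conjecture (Q1) holds for every finitely generated group `Γ` which has finitely generated
subgroups `N ≤ G` with `N` normal in `G`, `N` and `G / N` infinite and not both virtually cyclic:
every finite graph is an asymptotic minor of every Cayley graph of `Γ`.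
-/

open SimpleGraph Pool.Agent.W5h94.AM

namespace Pool.Agent.Results.MP_0f7bfe_al.NormalSubgroups

/-- Let `Γ` be a group, `N ≤ G ≤ Γ` finitely generated subgroups, `N` normal in `G`, `N` infinite and
of infinite index in `G`, such that `G / N` is not virtually cyclic (for every `g ∈ G` the subgroup
generated by `g` and `N` has infinite index in `G`) or `N` is not virtually cyclic (for every `g ∈ N`
the subgroup generated by `g` has infinite index in `N`). Then every finite graph `H` is an
asymptotic minor of the Cayley graph of `Γ` for every finite generating set `S` of `Γ`. -/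
theorem result {Γ : Type} [Group Γ] (G N : Subgroup Γ) (hNG : N ≤ G)
    (hnor : (N.subgroupOf G).Normal) (hG : G.FG) (hN : N.FG) (hinf : Infinite N)
    (hind : N.relIndex G = 0)
    (hvc : (∀ g ∈ G, (Subgroup.zpowers g ⊔ N).relIndex G = 0) ∨
      ∀ g ∈ N, (Subgroup.zpowers g).relIndex N = 0)
    (S : Set Γ) (hS : S.Finite) (hgen : Subgroup.closure S = ⊤)
    {W : Type} [Finite W] (H : SimpleGraph W) : AsymptoticMinor H (mulCayley S) :=
  both_main wm (line wm) (flap1 wm (far wm)) (flaps wm (flap1 wm (far wm))) routeB hS hgen hNG
    hnor hG hN hinf hind hvc H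

end Pool.Agent.Results.MP_0f7bfe_al.NormalSubgroups
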