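import Pool.Agent.W5h94.AM.LampMain
import Pool.Agent.W5h94.AM.LampRoute
import Pool.Agent.W5h94.AM.Wreath
import Pool.Agent.W5h94.AM.WM
import Pool.Agent.W5h94.AM.Line

set_option autoImplicit false

/-!
# Asymptotic minors of groups containing wreath products (MP_0f7bfe_al)

The conjecture (Q1) holds for every finitely generated group `Γ` which contains a restricted wreath
product `A ≀ B`, `A` nontrivial and `B` infinite and finitely generated: every finite graph is an
asymptotic minor of every Cayley graph of `Γ`.
-/

open SimpleGraph Pool.Agent.W5h94.AM

namespace Pool.Agent.Results.MP_0f7bfe_al.WreathProducts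

/-- Let `Γ` contain the restricted wreath product `A ≀ B` (`RWr A B`), `A` nontrivial, `B` infinite
and finitely generated. Then every finite graph `H` is an asymptotic minor of the Cayley graph of `Γ`
for every finite generating set `S` of `Γ`. -/
theorem result {Γ A B : Type} [Group Γ] [Group A] [Group B] (hA : Nontrivial A)
    (hB : Infinite B) (fB : Group.FG B) (ψ : RWr A B →* Γ) (hψ : Function.Injective ψ)
    (S : Set Γ) (hS : S.Finite) (hgen : Subgroup.closure S = ⊤)
    {W : Type} [Finite W] (H : SimpleGraph W) : AsymptoticMinor H (mulCayley S) :=
  wreath_main wm (wreath wm (line wm)) lamp hS hgen hA hB fB ψ hψ H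

end Pool.Agent.Results.MP_0f7bfe_al.WreathProducts
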